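import Pool.Agent.Y161.FSP.Part2
import Pool.Agent.H184R3.ES

set_option autoImplicit false

namespace Pool.Agent.Y161.FSP3

open Pool.Agent.H891WLC Pool.Agent.Y161.FSP2

theorem plane_lin {V : Type} (G : SimpleGraph V) (L : (ℝ × ℝ) ≃ₗ[ℝ] (ℝ × ℝ)) (q : V → ℝ × ℝ)
    (h : Plane G q) : Plane G (fun v => L (q v)) := by
  have hseg : ∀ a b z : ℝ × ℝ, z ∈ segment ℝ (L a) (L b) → L.symm z ∈ segment ℝ a b := by
    intro a b z hz
    have h1 := image_segment ℝ (L.symm : (ℝ × ℝ) →ₗ[ℝ] (ℝ × ℝ)).toAffineMap (L a) (L b)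
    have h2 : L.symm z ∈ (L.symm : (ℝ × ℝ) →ₗ[ℝ] (ℝ × ℝ)).toAffineMap '' segment ℝ (L a) (L b) :=
      ⟨z, hz, rfl⟩
    rw [h1] at h2
    simpa using h2
  obtain ⟨h1, h2, h3⟩ := h
  refine ⟨fun a b hab => h1 (L.injective hab), ?_, ?_⟩
  · intro u v w huv hwu hwv hmem
    apply h2 u v w huv hwu hwv
    have := hseg _ _ _ hmem
    simpa using this
  · intro u v x y huv hxy hne z hz1 hz2
    obtain ⟨w, hw1, hw2, hw3⟩ := h3 u v x y huv hxy hne (L.symm z) (hseg _ _ _ hz1) (hseg _ _ _ hz2)
    refine ⟨w, hw1, hw2, ?_⟩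
    show z = L (q w)
    rw [← hw3, LinearEquiv.apply_symm_apply]

/-- extension of a strictly increasing function from a subset -/
theorem extend {s : ℕ} (t : Finset (Fin s)) (f : Fin s → ℝ) (hf : StrictMonoOn f (t : Set (Fin s)))
    (w : Finset (Fin s)) : ∃ g : Fin s → ℝ, (∀ i ∈ t, g i = f i) ∧
      ∀ i ∈ t ∪ w, ∀ j ∈ t ∪ w, i < j → g i < g j := by
  classical
  induction w using Finset.induction_on with
  | empty =>
    refine ⟨f, fun _ _ => rfl, fun i hi j hj hij => ?_⟩
    rw [Finset.union_empty] at hi hj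
    exact hf hi hj hij
  | insert a w ha ih =>
    obtain ⟨g, hg1, hg2⟩ := ih
    by_cases hau : a ∈ t ∪ w
    · refine ⟨g, hg1, ?_⟩
      have e : t ∪ insert a w = t ∪ w := by
        ext x
        simp only [Finset.mem_union, Finset.mem_insert] at hau ⊢
        constructor
        · rintro (h | rfl | h)
          · exact Or.inl h
          · exact hau
          · exact Or.inr h
        · rintro (h | h)
          · exact Or.inl h
          · exact Or.inr (Or.inr h)
      rw [e]
      exact hg2
    · have hat : a ∉ t := fun h => hau (Finset.mem_union_left _ h)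
      obtain ⟨m, hm1, hm2⟩ := Order.exists_between_finsets
        (((t ∪ w).filter (fun i => i < a)).image g) (((t ∪ w).filter (fun i => a < i)).image g) (by
          intro x hx y hy
          obtain ⟨i, hi, rfl⟩ := Finset.mem_image.1 hx
          obtain ⟨j, hj, rfl⟩ := Finset.mem_image.1 hy
          rw [Finset.mem_filter] at hi hj
          exact hg2 i hi.1 j hj.1 (hi.2.trans hj.2))
      have hmem : ∀ i ∈ t ∪ insert a w, i ≠ a → i ∈ t ∪ w := by
        intro i hi hne
        simp only [Finset.mem_union, Finset.mem_insert] at hi ⊢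
        tauto
      refine ⟨Function.update g a m, fun i hi => ?_, fun i hi j hj hij => ?_⟩
      · rw [Function.update_of_ne (by rintro rfl; exact hat hi)]
        exact hg1 i hi
      · by_cases hia : i = a
        · subst hia
          rw [Function.update_self, Function.update_of_ne (ne_of_gt hij)]
          exact hm2 _ (Finset.mem_image_of_mem g (Finset.mem_filter.2
            ⟨hmem j hj (ne_of_gt hij), hij⟩))
        · by_cases hja : j = a
          · subst hja
            rw [Function.update_self, Function.update_of_ne hia]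
            exact hm1 _ (Finset.mem_image_of_mem g (Finset.mem_filter.2 ⟨hmem i hi hia, hij⟩))
          · rw [Function.update_of_ne hia, Function.update_of_ne hja]
            exact hg2 i (hmem i hi hia) j (hmem j hj hja) hij

/-- a shear which separates finitely many points -/
theorem shear {V : Type} [Fintype V] (Γ : V → ℝ × ℝ) (hΓ : Function.Injective Γ) :
    ∃ c : ℝ, Function.Injective fun v => (Γ v).1 + c * (Γ v).2 := by
  classical
  let bad : Finset ℝ := (Finset.univ : Finset (V × V)).image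
    fun p => ((Γ p.1).1 - (Γ p.2).1) / ((Γ p.2).2 - (Γ p.1).2)
  obtain ⟨c, hc⟩ := Infinite.exists_notMem_finset bad
  refine ⟨c, fun a b hab => ?_⟩
  by_contra hne
  have hab' : (Γ a).1 + c * (Γ a).2 = (Γ b).1 + c * (Γ b).2 := hab
  by_cases h2 : (Γ b).2 - (Γ a).2 = 0
  · apply hne
    apply hΓ
    have h3 : (Γ a).2 = (Γ b).2 := by linarith
    rw [h3] at hab'
    exact Prod.ext (by linarith) h3
  · apply hc
    refine Finset.mem_image.2 ⟨(a, b), Finset.mem_univ _, ?_⟩
    rw [div_eq_iff h2]
    linarith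

/-- the linear equivalence `(x, y) ↦ (a x - c y, y)`, `a = ±1` -/
theorem lin (a c : ℝ) (ha : a * a = 1) :
    ∃ L : (ℝ × ℝ) ≃ₗ[ℝ] (ℝ × ℝ), ∀ z, L z = (a * z.1 - c * z.2, z.2) := by
  refine ⟨LinearEquiv.ofLinear
    { toFun := fun z => (a * z.1 - c * z.2, z.2)
      map_add' := fun x y => by ext <;> simp; ring
      map_smul' := fun r x => by ext <;> simp; ring }
    { toFun := fun z => (a * (z.1 + c * z.2), z.2)
      map_add' := fun x y => by ext <;> simp; ring
      map_smul' := fun r x => by ext <;> simp; ring } ?_ ?_, fun z => rfl⟩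
  · ext z <;> simp [← mul_assoc, ha]
  · ext z <;> simp [← mul_assoc, ha]

theorem fix {V : Type} [Fintype V] (G : SimpleGraph V) (S : Finset V) (hS : FrO G S)
    (Γ : V → ℝ × ℝ) (hΓ : Function.Injective Γ) :
    ∃ T : Finset V, T ⊆ S ∧ S.card ≤ T.card ^ 2 ∧
      ∃ q : V → ℝ × ℝ, Plane G q ∧ ∀ v ∈ T, q v = Γ v := by
  classical
  rcases Nat.eq_zero_or_pos S.card with h0 | hpos
  · obtain ⟨v, hv, hvS, hq⟩ := hS
    obtain ⟨q, hq1, -⟩ := hq (fun i => (i : ℕ)) (fun _ => 0) (fun i j hij => by
      show ((i : ℕ) : ℝ) < ((j : ℕ) : ℝ)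
      exact_mod_cast hij)
    exact ⟨∅, Finset.empty_subset _, by simp [h0], q, hq1, by simp⟩
  · obtain ⟨v, hv, hvS, hq⟩ := hS
    obtain ⟨c, hc⟩ := shear Γ hΓ
    set f : Fin S.card → ℝ := fun i => (Γ (v i)).1 + c * (Γ (v i)).2 with hf
    have hfinj : Function.Injective f := fun i j hij => hv (hc hij)
    obtain ⟨r, hr⟩ : ∃ r, r = Nat.sqrt (S.card - 1) := ⟨_, rfl⟩
    have h1 : r * r < S.card := by
      have := Nat.sqrt_le (S.card - 1)
      rw [← hr] at this
      omega
    have h2 : S.card ≤ (r + 1) ^ 2 := by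
      have := Nat.lt_succ_sqrt (S.card - 1)
      rw [← hr, Nat.succ_eq_add_one] at this
      rw [sq]
      omega
    have main : ∀ (a : ℝ), a * a = 1 → ∀ t : Finset (Fin S.card), r < t.card →
        StrictMonoOn (fun i => a * f i) (t : Set (Fin S.card)) → ∃ T : Finset V, T ⊆ S ∧
          S.card ≤ T.card ^ 2 ∧ ∃ q : V → ℝ × ℝ, Plane G q ∧ ∀ v ∈ T, q v = Γ v := by
      intro a ha t ht hmono
      obtain ⟨g, hg1, hg2⟩ := extend t (fun i => a * f i) hmono Finset.univ
      obtain ⟨q, hq1, hq2⟩ := hq g (fun i => (Γ (v i)).2) (fun i j hij =>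
        hg2 i (Finset.mem_union_right _ (Finset.mem_univ _)) j
          (Finset.mem_union_right _ (Finset.mem_univ _)) hij)
      obtain ⟨L, hL⟩ := lin a c ha
      refine ⟨t.image v, ?_, ?_, fun w => L (q w), plane_lin G L q hq1, ?_⟩
      · intro w hw
        obtain ⟨i, -, rfl⟩ := Finset.mem_image.1 hw
        exact (hvS _).2 ⟨i, rfl⟩
      · rw [Finset.card_image_of_injective _ hv]
        exact h2.trans (Nat.pow_le_pow_left ht 2)
      · intro w hw
        obtain ⟨i, hi, rfl⟩ := Finset.mem_image.1 hw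
        show L (q (v i)) = Γ (v i)
        rw [hL, hq2 i, hg1 i hi]
        apply Prod.ext
        · show a * (a * f i) - c * (Γ (v i)).2 = (Γ (v i)).1
          rw [← mul_assoc, ha, one_mul, hf]
          ring
        · rfl
    rcases Pool.Agent.H184R3.ES.erdos_szekeres (r := r) (s := r)
        (by rw [Fintype.card_fin]; exact h1) hfinj with ⟨t, ht, hm⟩ | ⟨t, ht, hm⟩
    · exact main 1 (by norm_num) t ht (fun i hi j hj hij => by
        simpa using hm hi hj hij)
    · exact main (-1) (by norm_num) t ht (fun i hi j hj hij => by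
        have := hm hi hj hij
        simp only [neg_mul, one_mul]
        linarith)

end Pool.Agent.Y161.FSP3
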