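import Pool.Agent.H891FSS.FD_RES
import Pool.Agent.H891FSS.FE_RES

/-! Planar subcubic graphs and bipartite planar graphs: sets of vertices far apart are free, and
partitions into free sets. -/

set_option autoImplicit false

namespace Pool.Agent.Y161.FSP2

open Pool.Agent.H891WLC

/-- the order form: the points of `S` may be placed freely in a fixed order -/
def FrO {V : Type} (G : SimpleGraph V) (S : Finset V) : Prop :=
  ∃ v : Fin S.card → V, Function.Injective v ∧ (∀ a, a ∈ S ↔ ∃ i, v i = a) ∧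
    ∀ x y : Fin S.card → ℝ, StrictMono x →
      ∃ q : V → ℝ × ℝ, Plane G q ∧ ∀ i, q (v i) = (x i, y i)

/-- the point set form: `S` may be mapped onto every point set of its size -/
def FrP {V : Type} (G : SimpleGraph V) (S : Finset V) : Prop :=
  ∀ P : Finset (ℝ × ℝ), P.card = S.card →
    ∃ q : V → ℝ × ℝ, Plane G q ∧ ∀ z : ℝ × ℝ, (∃ s ∈ S, q s = z) ↔ z ∈ P

theorem of_order {V : Type} [Fintype V] (G : SimpleGraph V) (S : Finset V)
    (h : ∃ k : V → ℕ, (∀ s ∈ S, ∀ t ∈ S, k s = k t → s = t) ∧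
      ∀ x y : V → ℝ, (∀ s ∈ S, ∀ t ∈ S, k s < k t → x s < x t) →
        ∃ q : V → ℝ × ℝ, Plane G q ∧ ∀ s ∈ S, q s = (x s, y s)) : FrO G S ∧ FrP G S := by
  classical
  obtain ⟨k, hk1, hk2⟩ := h
  refine ⟨?_, fun P hPc => FD_SHEAR G S k hk1 hk2 P hPc⟩
  set T : Finset ℕ := S.image k with hT
  have hinj : Set.InjOn k (S : Set V) := fun a ha b hb hab => hk1 a ha b hb hab
  have hTc : T.card = S.card := Finset.card_image_of_injOn hinj
  have hex : ∀ i : Fin S.card, ∃ w ∈ S, k w = T.orderEmbOfFin hTc i := by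
    intro i
    have := Finset.orderEmbOfFin_mem T hTc i
    exact Finset.mem_image.1 this
  choose v hvS hvk using hex
  have hvinj : Function.Injective v := by
    intro a b hab
    have : T.orderEmbOfFin hTc a = T.orderEmbOfFin hTc b := by rw [← hvk, ← hvk, hab]
    exact (T.orderEmbOfFin hTc).injective this
  have hsurj : ∀ w ∈ S, ∃ i, v i = w := by
    intro w hw
    have h1 : k w ∈ (T : Set ℕ) := by
      rw [hT]; exact Finset.mem_coe.2 (Finset.mem_image_of_mem k hw)
    rw [← Finset.range_orderEmbOfFin T hTc] at h1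
    obtain ⟨i, hi⟩ := h1
    refine ⟨i, hk1 _ (hvS i) _ hw ?_⟩
    rw [hvk, hi]
  refine ⟨v, hvinj, fun a => ⟨hsurj a, ?_⟩, ?_⟩
  · rintro ⟨i, rfl⟩
    exact hvS i
  · intro x y hx
    obtain ⟨q, hq1, hq2⟩ := hk2 (Function.extend v x 0) (Function.extend v y 0) (by
      intro s hs t ht hst
      obtain ⟨i, rfl⟩ := hsurj s hs
      obtain ⟨j, rfl⟩ := hsurj t ht
      rw [hvinj.extend_apply, hvinj.extend_apply]
      rw [hvk, hvk] at hst
      exact hx ((T.orderEmbOfFin hTc).lt_iff_lt.1 hst))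
    refine ⟨q, hq1, fun i => ?_⟩
    rw [hq2 _ (hvS i), hvinj.extend_apply, hvinj.extend_apply]

/-- subcubic: pairwise distance at least four is enough -/
theorem cubicFree {V : Type} [Fintype V] (G : SimpleGraph V) (hP : ∃ p : V → ℝ × ℝ, Plane G p)
    (hG : ∀ v, Set.ncard {x | G.Adj v x} ≤ 3) (S : Finset V)
    (hS : ∀ v ∈ S, ∀ w ∈ S, v ≠ w → ¬ G.Adj v w ∧ (∀ x, ¬ (G.Adj v x ∧ G.Adj w x)) ∧
        ∀ x y, G.Adj v x → G.Adj w y → ¬ G.Adj x y) : FrO G S ∧ FrP G S := by
  classical
  exact of_order G S (W_FD_RES.inter G hP hG S hS)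

/-- bipartite: pairwise distance at least three is enough, without any bound on the degrees -/
theorem bipFree {V : Type} [Fintype V] (G : SimpleGraph V) (hP : ∃ p : V → ℝ × ℝ, Plane G p)
    (hc : G.Colorable 2) (S : Finset V)
    (hS : ∀ v ∈ S, ∀ w ∈ S, v ≠ w → ¬ G.Adj v w ∧ ∀ x, ¬ (G.Adj v x ∧ G.Adj w x)) :
    FrO G S ∧ FrP G S := by
  classical
  obtain ⟨p, hp⟩ := hP
  obtain ⟨C⟩ := hc
  have hb : ∀ x y, G.Adj x y → (x ∈ {v | C v = 0} ↔ y ∉ {v | C v = 0}) := by
    intro x y hxy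
    have hne := C.valid hxy
    simp only [Set.mem_ofPred_eq]
    generalize C x = a at *
    generalize C y = b at *
    revert a b
    decide
  exact of_order G S (W_FE_RES.mainV G p hp {v | C v = 0} hb S hS)

/-- greedy colouring -/
theorem greedy {V : Type} (R : V → V → Prop) (hsym : ∀ v w, R v w → R w v) (B : V → Finset V)
    (k : ℕ) (hB : ∀ v, (B v).card ≤ k) (hmem : ∀ v w, v ≠ w → R v w → w ∈ B v) (T : Finset V) :
    ∃ g : V → Fin (k + 1), ∀ v ∈ T, ∀ w ∈ T, v ≠ w → R v w → g v ≠ g w := by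
  classical
  induction T using Finset.induction_on with
  | empty => exact ⟨fun _ => 0, fun v hv => absurd hv (Finset.notMem_empty v)⟩
  | insert a T ha ih =>
    obtain ⟨g, hg⟩ := ih
    have hcard : ((B a).image g).card < (Finset.univ : Finset (Fin (k + 1))).card := by
      have h1 : ((B a).image g).card ≤ (B a).card := Finset.card_image_le
      have h2 := hB a
      rw [Finset.card_univ, Fintype.card_fin]
      omega
    obtain ⟨c, -, hc⟩ := Finset.exists_mem_notMem_of_card_lt_card hcard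
    have hc' : ∀ y ∈ T, R a y → g y ≠ c := by
      intro y hyT hy heq
      apply hc
      rw [Finset.mem_image]
      exact ⟨y, hmem a y (fun h => ha (h ▸ hyT)) hy, heq⟩
    refine ⟨Function.update g a c, ?_⟩
    intro v hv w' hw' hvw hadj
    by_cases hva : v = a
    · subst hva
      rw [Function.update_self, Function.update_of_ne (Ne.symm hvw)]
      exact (hc' w' (Finset.mem_of_mem_insert_of_ne hw' (Ne.symm hvw)) hadj).symm
    · have hvT := Finset.mem_of_mem_insert_of_ne hv hva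
      by_cases hwa' : w' = a
      · subst hwa'
        rw [Function.update_self, Function.update_of_ne hva]
        exact hc' v hvT (hsym _ _ hadj)
      · rw [Function.update_of_ne hva, Function.update_of_ne hwa']
        exact hg v hvT w' (Finset.mem_of_mem_insert_of_ne hw' hwa') hvw hadj

open Classical in
/-- the neighbourhood -/
noncomputable def N {V : Type} [Fintype V] (G : SimpleGraph V) (v : V) : Finset V :=
  Finset.univ.filter (fun x => G.Adj v x)

theorem mem_N {V : Type} [Fintype V] (G : SimpleGraph V) (v x : V) : x ∈ N G v ↔ G.Adj v x := by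
  unfold N
  simp

theorem card_N {V : Type} [Fintype V] (G : SimpleGraph V) (D : ℕ)
    (hG : ∀ v, Set.ncard {x | G.Adj v x} ≤ D) (v : V) : (N G v).card ≤ D := by
  have h : ((N G v : Finset V) : Set V) = {x | G.Adj v x} := by
    ext x
    rw [Finset.mem_coe, mem_N]
    rfl
  have h1 := hG v
  rw [← h, Set.ncard_coe_finset] at h1
  exact h1

theorem card_Ne {V : Type} [Fintype V] [DecidableEq V] (G : SimpleGraph V) (D : ℕ)
    (hG : ∀ v, Set.ncard {x | G.Adj v x} ≤ D) (v x : V) (h : G.Adj v x) :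
    ((N G x).erase v).card ≤ D - 1 := by
  rw [Finset.card_erase_of_mem ((mem_N G x v).2 h.symm)]
  exact Nat.sub_le_sub_right (card_N G D hG x) 1

/-- the vertices at distance one or two -/
noncomputable def B2 {V : Type} [Fintype V] [DecidableEq V] (G : SimpleGraph V) (v : V) :
    Finset V :=
  N G v ∪ (N G v).biUnion fun x => (N G x).erase v

/-- the vertices at distance one, two or three -/
noncomputable def B3 {V : Type} [Fintype V] [DecidableEq V] (G : SimpleGraph V) (v : V) :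
    Finset V :=
  B2 G v ∪ (N G v).biUnion fun x => ((N G x).erase v).biUnion fun y => (N G y).erase x

theorem card_B2 {V : Type} [Fintype V] [DecidableEq V] (G : SimpleGraph V) (D : ℕ)
    (hG : ∀ v, Set.ncard {x | G.Adj v x} ≤ D) (v : V) : (B2 G v).card ≤ D * D := by
  have h1 := card_N G D hG v
  have h2 : ((N G v).biUnion fun x => (N G x).erase v).card ≤ (N G v).card * (D - 1) :=
    Finset.card_biUnion_le_card_mul _ _ _ fun x hx => card_Ne G D hG v x ((mem_N G v x).1 hx)
  have h3 : (N G v).card * (D - 1) ≤ D * (D - 1) := Nat.mul_le_mul_right _ h1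
  have h4 : (B2 G v).card ≤ (N G v).card + ((N G v).biUnion fun x => (N G x).erase v).card :=
    Finset.card_union_le _ _
  have h5 : D + D * (D - 1) = D * D := by
    cases D with
    | zero => rfl
    | succ D => simp only [Nat.add_sub_cancel]; ring
  omega

theorem card_B3 {V : Type} [Fintype V] [DecidableEq V] (G : SimpleGraph V)
    (hG : ∀ v, Set.ncard {x | G.Adj v x} ≤ 3) (v : V) : (B3 G v).card ≤ 21 := by
  have h1 := card_N G 3 hG v
  have h2 := card_B2 G 3 hG v
  have h3 : ((N G v).biUnion fun x => ((N G x).erase v).biUnion fun y => (N G y).erase x).card ≤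
      (N G v).card * 4 := by
    refine Finset.card_biUnion_le_card_mul _ _ _ fun x hx => ?_
    have h5 := card_Ne G 3 hG v x ((mem_N G v x).1 hx)
    have h6 : (((N G x).erase v).biUnion fun y => (N G y).erase x).card ≤
        ((N G x).erase v).card * 2 :=
      Finset.card_biUnion_le_card_mul _ _ _ fun y hy =>
        card_Ne G 3 hG x y ((mem_N G x y).1 (Finset.mem_of_mem_erase hy))
    omega
  have h4 : (B3 G v).card ≤ (B2 G v).card +
      ((N G v).biUnion fun x => ((N G x).erase v).biUnion fun y => (N G y).erase x).card :=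
    Finset.card_union_le _ _
  omega

theorem mem_B2 {V : Type} [Fintype V] [DecidableEq V] (G : SimpleGraph V) (v w : V) (hne : v ≠ w)
    (h : G.Adj v w ∨ ∃ x, G.Adj v x ∧ G.Adj w x) : w ∈ B2 G v := by
  unfold B2
  rw [Finset.mem_union]
  rcases h with h | ⟨x, h1, h2⟩
  · exact Or.inl ((mem_N G v w).2 h)
  · refine Or.inr (Finset.mem_biUnion.2 ⟨x, (mem_N G v x).2 h1, ?_⟩)
    exact Finset.mem_erase.2 ⟨hne.symm, (mem_N G x w).2 h2.symm⟩

theorem mem_B3 {V : Type} [Fintype V] [DecidableEq V] (G : SimpleGraph V) (v w : V) (hne : v ≠ w)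
    (h : G.Adj v w ∨ (∃ x, G.Adj v x ∧ G.Adj w x) ∨
      ∃ x y, G.Adj v x ∧ G.Adj w y ∧ G.Adj x y) : w ∈ B3 G v := by
  unfold B3
  rw [Finset.mem_union]
  rcases h with h | h | ⟨x, y, h1, h2, h3⟩
  · exact Or.inl (mem_B2 G v w hne (Or.inl h))
  · exact Or.inl (mem_B2 G v w hne (Or.inr h))
  · by_cases hyv : y = v
    · subst hyv
      exact Or.inl (mem_B2 G y w hne (Or.inl h2.symm))
    · by_cases hxw : x = w
      · subst hxw
        exact Or.inl (mem_B2 G v x hne (Or.inl h1))
      · refine Or.inr (Finset.mem_biUnion.2 ⟨x, (mem_N G v x).2 h1, ?_⟩)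
        refine Finset.mem_biUnion.2 ⟨y, Finset.mem_erase.2 ⟨hyv, (mem_N G x y).2 h3⟩, ?_⟩
        exact Finset.mem_erase.2 ⟨fun h => hxw h.symm, (mem_N G y w).2 h2.symm⟩

/-- planar graphs of maximum degree at most three: twenty-two free classes -/
theorem cubicPart {V : Type} [Fintype V] (G : SimpleGraph V) (hP : ∃ p : V → ℝ × ℝ, Plane G p)
    (hG : ∀ v, Set.ncard {x | G.Adj v x} ≤ 3) :
    ∃ f : V → Fin 22, ∀ S : Finset V, (∀ v ∈ S, ∀ w ∈ S, f v = f w) → FrO G S ∧ FrP G S := by
  classical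
  obtain ⟨g, hg⟩ := greedy (fun v w => G.Adj v w ∨ (∃ x, G.Adj v x ∧ G.Adj w x) ∨
      ∃ x y, G.Adj v x ∧ G.Adj w y ∧ G.Adj x y) (by
      rintro v w (h | ⟨x, h1, h2⟩ | ⟨x, y, h1, h2, h3⟩)
      · exact Or.inl h.symm
      · exact Or.inr (Or.inl ⟨x, h2, h1⟩)
      · exact Or.inr (Or.inr ⟨y, x, h2, h1, h3.symm⟩)) (B3 G) 21 (card_B3 G hG)
      (fun v w hne h => mem_B3 G v w hne h) Finset.univ
  refine ⟨g, fun S hS => cubicFree G hP hG S fun v hv w hw hvw => ?_⟩
  have h0 := hg v (Finset.mem_univ v) w (Finset.mem_univ w) hvw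
  have h1 := hS v hv w hw
  refine ⟨fun h => h0 (Or.inl h) h1, fun x hx => h0 (Or.inr (Or.inl ⟨x, hx⟩)) h1,
    fun x y hx hy hxy => h0 (Or.inr (Or.inr ⟨x, y, hx, hy, hxy⟩)) h1⟩

/-- bipartite planar graphs of maximum degree at most `D`: `D ^ 2 + 1` free classes -/
theorem bipPart {V : Type} [Fintype V] (G : SimpleGraph V) (hP : ∃ p : V → ℝ × ℝ, Plane G p)
    (hc : G.Colorable 2) (D : ℕ) (hG : ∀ v, Set.ncard {x | G.Adj v x} ≤ D) :
    ∃ f : V → Fin (D * D + 1), ∀ S : Finset V, (∀ v ∈ S, ∀ w ∈ S, f v = f w) →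
      FrO G S ∧ FrP G S := by
  classical
  obtain ⟨g, hg⟩ := greedy (fun v w => G.Adj v w ∨ ∃ x, G.Adj v x ∧ G.Adj w x) (by
      rintro v w (h | ⟨x, h1, h2⟩)
      · exact Or.inl h.symm
      · exact Or.inr ⟨x, h2, h1⟩) (B2 G) (D * D) (card_B2 G D hG)
      (fun v w hne h => mem_B2 G v w hne h) Finset.univ
  refine ⟨g, fun S hS => bipFree G hP hc S fun v hv w hw hvw => ?_⟩
  have h0 := hg v (Finset.mem_univ v) w (Finset.mem_univ w) hvw
  have h1 := hS v hv w hw
  exact ⟨fun h => h0 (Or.inl h) h1, fun x hx => h0 (Or.inr ⟨x, hx⟩) h1⟩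

/-- the largest class inside `X` -/
theorem pick {V : Type} (m : ℕ) (f : V → Fin (m + 1)) (X : Finset V) :
    ∃ S : Finset V, S ⊆ X ∧ (∀ v ∈ S, ∀ w ∈ S, f v = f w) ∧ X.card ≤ (m + 1) * S.card := by
  classical
  obtain ⟨a, -, ha⟩ := Finset.exists_max_image (Finset.univ : Finset (Fin (m + 1)))
    (fun a => (X.filter fun v => f v = a).card) Finset.univ_nonempty
  refine ⟨X.filter fun v => f v = a, Finset.filter_subset _ _, ?_, ?_⟩
  · intro v hv w hw
    rw [(Finset.mem_filter.1 hv).2, (Finset.mem_filter.1 hw).2]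
  · have h1 : X.card = ∑ b : Fin (m + 1), (X.filter fun v => f v = b).card :=
      Finset.card_eq_sum_card_fiberwise (fun v _ => Finset.mem_coe.2 (Finset.mem_univ (f v)))
    rw [h1]
    refine (Finset.sum_le_card_nsmul _ _ _ fun b hb => ha b hb).trans ?_
    rw [Finset.card_univ, Fintype.card_fin, smul_eq_mul]

end Pool.Agent.Y161.FSP2
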